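import Mathlib
import Pool.Agent.H14.GamAdd

/-!
MP_9a4f8a_co: `4 γ(p) ≤ 3 p² + 6 p + 8`, that is `γ(p) ≤ ⌊(3 p² + 6 p + 8) / 4⌋`, for every prime `p`.

If a set of points of the projective plane over `GF(p)` misses few points, then through each of its
points there are three lines which miss less than `p / 4` points of the set each. A representation
of the set over a field `K` gives three injective functions `α, κ, β` on dense subsets `A, D, B` of
`ZMod p` with `β (a + k) = α a + κ k` whenever `a ∈ A`, `k ∈ D`, `a + k ∈ B`. Then the difference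
`β (b + d) - β b` depends on `d` only, it is additive in `d`, and so `p = 0` in `K`.
-/

set_option autoImplicit false

namespace Pool.Agent.Results.MP_9a4f8a_co.ThreeQuarters

open Finset Matrix Pool.Agent.H14.Gam

/-- `M` is representable over `K`: there is a map `f` of its ground set to a `K`-vector space under
which the independent sets of `M` are exactly the sets which are sent injectively to linearly
independent sets (`LinearIndepOn K f I`: the family `f x`, `x ∈ I`, is linearly independent). -/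
def Representable {E : Type} (M : Matroid E) (K : Type) [Field K] : Prop :=
  ∃ (V : Type) (_ : AddCommGroup V) (_ : Module K V) (f : E → V),
    ∀ I : Set E, M.Indep I ↔ LinearIndepOn K f I

/-- `M` is a simple matroid with ground set the whole type `E`. -/
def IsSimple {E : Type} (M : Matroid E) : Prop :=
  M.E = Set.univ ∧ ∀ x y : E, M.Indep {x, y}

/-- `M` has rank three. -/
def RankThree {E : Type} (M : Matroid E) : Prop := ∃ B, M.IsBase B ∧ B.ncard = 3

/-- The property of `N` in the definition of `γ(p)`: every field over which a simple rank-3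
`GF(p)`-representable matroid with at least `N` points is representable has characteristic `p`. -/
def SizeForcesChar (p : ℕ) [Fact p.Prime] (N : ℕ) : Prop :=
  ∀ (E : Type) [Finite E] (M : Matroid E), IsSimple M → RankThree M →
    Representable M (ZMod p) → N ≤ Nat.card E →
    ∀ (K : Type) [Field K], Representable M K → CharP K p

section

variable {E : Type} {K W : Type} [Field K] [AddCommGroup W] [Module K W]

theorem ne_zero_of {f : E → W} {x : E} (h : LinearIndepOn K f {x}) : f x ≠ 0 :=
  h.ne_zero (Set.mem_singleton x)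

theorem ne_smul_of {f : E → W} {x y : E} (hxy : x ≠ y) (h : LinearIndepOn K f {x, y}) (t : K) :
    f x ≠ t • f y := by
  intro e
  have h1 := (linearIndepOn_insert (s := {y}) (by simpa using hxy)).1 h
  apply h1.2
  rw [Set.image_singleton, e]
  exact Submodule.smul_mem _ _ (Submodule.mem_span_singleton_self _)

/-- a point in the span of two others is dependent on them -/
theorem not_indep {f : E → W} {x y z : E} (hx : z ≠ x) (hy : z ≠ y) (s t : K)
    (h : f z = s • f x + t • f y) : ¬ LinearIndepOn K f (insert z {x, y}) := by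
  intro hl
  have h1 := (linearIndepOn_insert (s := {x, y}) (by simp [hx, hy])).1 hl
  apply h1.2
  rw [Set.image_pair, h, Submodule.mem_span_pair]
  exact ⟨s, t, rfl⟩

theorem exists_comb {f : E → W} {x y z : E} (hx : z ≠ x) (hy : z ≠ y)
    (h2 : LinearIndepOn K f {x, y}) (h : ¬ LinearIndepOn K f (insert z {x, y})) :
    ∃ s t : K, f z = s • f x + t • f y := by
  rw [linearIndepOn_insert (s := {x, y}) (by simp [hx, hy]), not_and_not_right] at h
  have := h h2
  rw [Set.image_pair, Submodule.mem_span_pair] at this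
  obtain ⟨s, t, h⟩ := this
  exact ⟨s, t, h.symm⟩

theorem indep_triple {f : E → W} {x y z : E} (hx : z ≠ x) (hy : z ≠ y)
    (h2 : LinearIndepOn K f {x, y}) (h : ∀ s t : K, f z ≠ s • f x + t • f y) :
    LinearIndepOn K f (insert z {x, y}) := by
  by_contra hc
  obtain ⟨s, t, e⟩ := exists_comb hx hy h2 hc
  exact h s t e

theorem fam_of {f : E → W} {x y z : E} (hxy : x ≠ y) (hxz : x ≠ z) (hyz : y ≠ z)
    (h : LinearIndepOn K f {x, y, z}) : LinearIndependent K ![f x, f y, f z] := by
  have h1 := LinearIndependent.comp h (fun i : Fin 3 => (⟨![x, y, z] i, by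
      fin_cases i <;> simp⟩ : ({x, y, z} : Set E))) (by
        intro i j hij
        have := congrArg Subtype.val hij
        fin_cases i <;> fin_cases j <;> simp_all)
  have e : ((fun a : ({x, y, z} : Set E) => f a) ∘ fun i : Fin 3 => (⟨![x, y, z] i, by
      fin_cases i <;> simp⟩ : ({x, y, z} : Set E))) = ![f x, f y, f z] := by
    funext i
    fin_cases i <;> rfl
  rw [← e]
  exact h1

end

/-- The main step. -/
theorem main {p : ℕ} [Fact p.Prime] {E : Type} [Finite E] {M : Matroid E} (hs : IsSimple M)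
    (h3 : RankThree M) (hrep : Representable M (ZMod p))
    (hN : 3 * p ^ 2 + 6 * p + 4 < 4 * Nat.card E)
    {K : Type} [Field K] (hK : Representable M K) : (p : K) = 0 := by
  classical
  have hp : p.Prime := Fact.out
  obtain ⟨V, _, _, f, hf⟩ := hrep
  obtain ⟨W, _, _, h, hh⟩ := hK
  obtain ⟨B, hB, hB3⟩ := h3
  obtain ⟨a, b, c, hab, hac, hbc, rfl⟩ := Set.ncard_eq_three.1 hB3
  have : Nonempty E := ⟨a⟩
  have := Fintype.ofFinite E
  have hfB : LinearIndepOn (ZMod p) f {a, b, c} := (hf _).1 hB.indep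
  -- coordinates
  have hspan : ∀ x, ∃ y : Fin 3 → ZMod p, f x = y 0 • f a + y 1 • f b + y 2 • f c := by
    intro x
    have hx : f x ∈ Submodule.span (ZMod p) (f '' {a, b, c}) := by
      by_cases hxB : x ∈ ({a, b, c} : Set E)
      · exact Submodule.subset_span ⟨x, hxB, rfl⟩
      · by_contra hc
        have h1 : LinearIndepOn (ZMod p) f (insert x {a, b, c}) :=
          (linearIndepOn_insert hxB).2 ⟨hfB, hc⟩
        exact hxB (hB.mem_of_insert_indep ((hf _).2 h1))
    have e : f '' {a, b, c} = {f a, f b, f c} := by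
      rw [Set.image_insert_eq, Set.image_pair]
    rw [e, Submodule.mem_span_triple] at hx
    obtain ⟨r, s, t, hx⟩ := hx
    exact ⟨![r, s, t], by simpa using hx.symm⟩
  choose φ hφ using hspan
  -- the linear map
  have hfam : LinearIndependent (ZMod p) ![f a, f b, f c] := fam_of hab hac hbc hfB
  have hL : ∀ y z : Fin 3 → ZMod p, y 0 • f a + y 1 • f b + y 2 • f c =
      z 0 • f a + z 1 • f b + z 2 • f c → y = z := by
    intro y z e
    have h2 := Fintype.linearIndependent_iff.1 hfam (y - z) (by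
      rw [Fin.sum_univ_three]
      simp only [Pi.sub_apply, Matrix.cons_val_zero, Matrix.cons_val_one, Matrix.cons_val]
      have e' := sub_eq_zero.2 e
      rw [← e']
      module)
    ext i
    have := h2 i
    rw [Pi.sub_apply] at this
    rw [sub_eq_zero.1 this]
  have hφ_smul : ∀ x y : E, ∀ t : ZMod p, φ x = t • φ y → f x = t • f y := by
    intro x y t e
    rw [hφ x, hφ y, e]
    simp only [Pi.smul_apply, smul_eq_mul]
    module
  have hφ_comb : ∀ x y z : E, ∀ s t : ZMod p, φ z = s • φ x + t • φ y →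
      f z = s • f x + t • f y := by
    intro x y z s t e
    rw [hφ x, hφ y, hφ z, e]
    simp only [Pi.add_apply, Pi.smul_apply, smul_eq_mul]
    module
  have hφ_comb' : ∀ x y z : E, ∀ s t : ZMod p, f z = s • f x + t • f y →
      φ z = s • φ x + t • φ y := by
    intro x y z s t e
    apply hL
    rw [← hφ z, e, hφ x, hφ y]
    simp only [Pi.add_apply, Pi.smul_apply, smul_eq_mul]
    module
  have hpair : ∀ x y : E, LinearIndepOn (ZMod p) f {x, y} := fun x y => (hf _).1 (hs.2 x y)
  have hpair' : ∀ x y : E, LinearIndepOn K h {x, y} := fun x y => (hh _).1 (hs.2 x y)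
  have hφ0 : ∀ x, φ x ≠ 0 := by
    intro x e
    have h1 := ne_zero_of (K := ZMod p) (f := f) (x := x) (by simpa using hpair x x)
    apply h1
    rw [hφ x, e]
    simp
  have hφinj : ∀ x y : E, ∀ t : ZMod p, φ x = t • φ y → x = y := by
    intro x y t e
    by_contra hxy
    exact ne_smul_of hxy (hpair x y) t (hφ_smul x y t e)
  -- the missing vectors
  obtain ⟨Miss, hMiss⟩ : ∃ S : Finset (Fin 3 → ZMod p), S =
      univ.filter fun w => w ≠ 0 ∧ ¬ ∃ e : E, ∃ t : ZMod p, t ≠ 0 ∧ w = t • φ e := ⟨_, rfl⟩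
  obtain ⟨Cone, hCone⟩ : ∃ S : Finset (Fin 3 → ZMod p), S =
      univ.image fun e : E × (ZMod p)ˣ => (e.2 : ZMod p) • φ e.1 := ⟨_, rfl⟩
  have hcone : Cone.card = Nat.card E * (p - 1) := by
    rw [hCone, card_image_of_injective]
    · rw [Finset.card_univ, Fintype.card_prod, ZMod.card_units, Nat.card_eq_fintype_card]
    · rintro ⟨x, s⟩ ⟨y, t⟩ e
      simp only at e
      have e1 : φ x = ((s⁻¹ * t : (ZMod p)ˣ) : ZMod p) • φ y := by
        rw [Units.val_mul, mul_smul, ← e, smul_smul, Units.inv_mul, one_smul]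
      have e2 := hφinj x y _ e1
      subst e2
      have e3 : ((s : ZMod p) - t) • φ x = 0 := by rw [sub_smul, e, sub_self]
      rcases smul_eq_zero.1 e3 with e4 | e4
      · rw [Prod.mk.injEq]
        exact ⟨rfl, Units.ext (sub_eq_zero.1 e4)⟩
      · exact absurd e4 (hφ0 x)
  have hcount : Miss.card + 1 + Nat.card E * (p - 1) ≤ p ^ 3 := by
    have d1 : Disjoint Miss {0} := by
      rw [Finset.disjoint_singleton_right, hMiss, mem_filter]
      simp
    have d2 : Disjoint (Miss ∪ {0}) Cone := by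
      rw [Finset.disjoint_left]
      intro w hw hw'
      rw [hCone, mem_image] at hw'
      obtain ⟨⟨e, t⟩, -, rfl⟩ := hw'
      rw [mem_union, mem_singleton, hMiss, mem_filter] at hw
      rcases hw with hw | hw
      · exact hw.2.2 ⟨e, t, t.ne_zero, rfl⟩
      · rcases smul_eq_zero.1 hw with h1 | h1
        · exact t.ne_zero h1
        · exact hφ0 e h1
    have h1 := card_le_univ ((Miss ∪ {0}) ∪ Cone)
    rw [card_union_of_disjoint d2, card_union_of_disjoint d1, card_singleton, hcone] at h1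
    have h2 : Fintype.card (Fin 3 → ZMod p) = p ^ 3 := by simp [ZMod.card]
    omega
  -- the vectors which are hit
  obtain ⟨C, hC⟩ : ∃ C : Set (Fin 3 → ZMod p), C =
      {w | ∃ e : E, ∃ t : ZMod p, t ≠ 0 ∧ w = t • φ e} := ⟨_, rfl⟩
  have hscale : ∀ (l : ZMod p) (w : Fin 3 → ZMod p), l ≠ 0 → l • w ∈ C → w ∈ C := by
    intro l w hl hw
    rw [hC] at hw ⊢
    obtain ⟨e, t, ht, h1⟩ := hw
    refine ⟨e, l⁻¹ * t, mul_ne_zero (inv_ne_zero hl) ht, ?_⟩
    rw [mul_smul, ← h1, smul_smul, inv_mul_cancel₀ hl, one_smul]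
  -- the numbers of missing points on the lines
  obtain ⟨mis, hmis⟩ : ∃ mis : ZMod p → Finset (ZMod p), mis = fun t =>
      univ.filter fun s => (![s, t, 1] : Fin 3 → ZMod p) ∉ C := ⟨_, rfl⟩
  obtain ⟨Bad, hBad⟩ : ∃ Bad : Finset (ZMod p × ZMod p), Bad =
      univ.filter fun q => (![q.1, q.2, 1] : Fin 3 → ZMod p) ∉ C := ⟨_, rfl⟩
  have hsum : Bad.card = ∑ t, (mis t).card := by
    have h1 := Finset.card_eq_sum_card_fiberwise (f := fun q : ZMod p × ZMod p => q.2)
      (s := Bad) (t := (univ : Finset (ZMod p))) (fun _ _ => by simp)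
    rw [h1]
    refine Finset.sum_congr rfl fun t _ => ?_
    refine (Finset.card_bij (fun s _ => (s, t)) ?_ ?_ ?_).symm
    · intro s hs
      rw [hmis, mem_filter] at hs
      rw [mem_filter, hBad, mem_filter]
      exact ⟨⟨mem_univ _, hs.2⟩, rfl⟩
    · intro s _ s' _ e
      exact (Prod.mk.inj e).1
    · rintro ⟨s, t'⟩ hq
      rw [mem_filter, hBad, mem_filter] at hq
      obtain ⟨⟨-, h2⟩, h3⟩ := hq
      simp only at h3
      subst h3
      exact ⟨s, by rw [hmis, mem_filter]; exact ⟨mem_univ _, h2⟩, rfl⟩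
  have hBM : Bad.card * (p - 1) ≤ Miss.card := by
    have h1 : (Bad ×ˢ (univ : Finset (ZMod p)ˣ)).card = Bad.card * (p - 1) := by
      rw [card_product, Finset.card_univ, ZMod.card_units]
    rw [← h1]
    refine Finset.card_le_card_of_injOn
      (fun q => ((q.2 : ZMod p)) • (![q.1.1, q.1.2, 1] : Fin 3 → ZMod p)) ?_ ?_
    · rintro ⟨⟨s, t⟩, u⟩ hq
      rw [mem_coe, mem_product, hBad, mem_filter] at hq
      rw [mem_coe, hMiss, mem_filter]
      refine ⟨mem_univ _, ?_, ?_⟩
      · intro e
        have := congrFun e 2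
        simp at this
      · intro hc
        apply hq.1.2
        apply hscale u _ u.ne_zero
        rw [hC]
        exact hc
    · rintro ⟨⟨s, t⟩, u⟩ _ ⟨⟨s', t'⟩, u'⟩ _ e
      simp only at e
      have e2 := congrFun e 2
      have e1 := congrFun e 1
      have e0 := congrFun e 0
      simp at e0 e1 e2
      have e3 : u = u' := Units.ext e2
      subst e3
      have f0 : s = s' := by simpa using e0
      have f1 : t = t' := by simpa using e1
      rw [f0, f1]
  -- three good lines
  obtain ⟨G, hG⟩ : ∃ G : Finset (ZMod p), G = univ.filter fun t => 4 * (mis t).card < p :=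
    ⟨_, rfl⟩
  have hG3 : 2 < G.card := by
    by_contra hle
    push Not at hle
    have h1 : (p - 2) * p ≤ ∑ t, 4 * (mis t).card := by
      have h2 : Gᶜ.card * p ≤ ∑ t ∈ Gᶜ, 4 * (mis t).card := by
        rw [← smul_eq_mul, ← Finset.sum_const]
        refine Finset.sum_le_sum fun t ht => ?_
        rw [mem_compl, hG, mem_filter, not_and] at ht
        have := ht (mem_univ _)
        omega
      have h3 : ∑ t ∈ Gᶜ, 4 * (mis t).card ≤ ∑ t, 4 * (mis t).card :=
        Finset.sum_le_sum_of_subset (Finset.subset_univ _)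
      have h4 : p - 2 ≤ Gᶜ.card := by
        rw [card_compl, ZMod.card]
        omega
      exact (Nat.mul_le_mul_right _ h4).trans (h2.trans h3)
    rw [← Finset.mul_sum, ← hsum] at h1
    obtain ⟨q, hq⟩ : ∃ q, p = q + 2 := ⟨p - 2, by have := hp.two_le; omega⟩
    obtain ⟨n, hn⟩ : ∃ n, n = Nat.card E := ⟨_, rfl⟩
    obtain ⟨B', hB'⟩ : ∃ B', B' = Bad.card := ⟨_, rfl⟩
    rw [← hn] at hN hcount
    rw [← hB'] at h1 hBM
    have h5 : B' * (p - 1) + 1 + n * (p - 1) ≤ p ^ 3 := by omega
    have e1 : p - 1 = q + 1 := by omega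
    have e2 : p - 2 = q := by omega
    rw [e1] at h5
    rw [e2] at h1
    have h6 : (B' + n) * (q + 1) ≤ (p ^ 2 + p + 1) * (q + 1) := by
      have : p ^ 3 = (p ^ 2 + p + 1) * (q + 1) + 1 := by
        rw [hq]
        ring
      rw [this] at h5
      nlinarith
    have h7 : B' + n ≤ p ^ 2 + p + 1 := Nat.le_of_mul_le_mul_right h6 (by omega)
    have h8 : q * p = p ^ 2 - 2 * p := by
      rw [hq]
      have : (q + 2) ^ 2 = q * (q + 2) + 2 * (q + 2) := by ring
      omega
    have h9 : 2 * p ≤ p ^ 2 := by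
      rw [hq]
      nlinarith
    omega
  obtain ⟨t₁, g1, t₂, g2, t₃, g3, h12, h13, h23⟩ := Finset.two_lt_card.1 hG3
  rw [hG, mem_filter] at g1 g2 g3
  have d13 : t₁ - t₃ ≠ 0 := sub_ne_zero.2 h13
  have hl1 : (t₂ - t₃) / (t₁ - t₃) ≠ 0 := div_ne_zero (sub_ne_zero.2 h23) d13
  have hl3 : (t₁ - t₂) / (t₁ - t₃) ≠ 0 := div_ne_zero (sub_ne_zero.2 h12) d13
  have hs1 : (t₂ - t₃) / (t₁ - t₃) + (t₁ - t₂) / (t₁ - t₃) = 1 := by
    field_simp
    ring
  have hs2 : (t₂ - t₃) / (t₁ - t₃) * t₁ + (t₁ - t₂) / (t₁ - t₃) * t₃ = t₂ := by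
    field_simp
    ring
  obtain ⟨l₁, hl₁⟩ : ∃ l₁, l₁ = (t₂ - t₃) / (t₁ - t₃) := ⟨_, rfl⟩
  obtain ⟨l₃, hl₃⟩ : ∃ l₃, l₃ = (t₁ - t₂) / (t₁ - t₃) := ⟨_, rfl⟩
  rw [← hl₁] at hl1 hs1 hs2
  rw [← hl₃] at hl3 hs1 hs2
  have hset : ∀ (l t : ZMod p), l ≠ 0 →
      (univ.filter fun a : ZMod p => (![a, l * t, l] : Fin 3 → ZMod p) ∈ C)ᶜ.card ≤
        (mis t).card := by
    intro l t hl
    refine Finset.card_le_card_of_injOn (fun a => a / l) ?_ ?_
    · intro a ha
      rw [mem_coe, mem_compl, mem_filter, not_and] at ha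
      rw [mem_coe, hmis, mem_filter]
      refine ⟨mem_univ _, fun hc => ha (mem_univ _) ?_⟩
      have e : (![a, l * t, l] : Fin 3 → ZMod p) = l • ![a / l, t, 1] := by
        ext i
        fin_cases i
        · simp
          field_simp
        · simp
        · simp
      rw [e]
      apply hscale l⁻¹ _ (inv_ne_zero hl)
      rw [smul_smul, inv_mul_cancel₀ hl, one_smul]
      exact hc
    · intro a _ b _ e
      simp only at e
      exact (div_left_inj' hl).1 e
  -- the points
  have hpt : ∀ w ∈ C, ∃ e : E, ∃ t : ZMod p, t ≠ 0 ∧ w = t • φ e := by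
    intro w hw
    rw [hC] at hw
    exact hw
  choose! X T hT0 hT using hpt
  have hsep : ∀ w ∈ C, ∀ w' ∈ C, X w = X w' → T w' • w = T w • w' := by
    intro w hw w' hw' e
    conv_lhs => rw [hT w hw]
    conv_rhs => rw [hT w' hw']
    rw [e, smul_smul, smul_smul, mul_comm]
  have hXφ : ∀ w ∈ C, φ (X w) = (T w)⁻¹ • w := by
    intro w hw
    have e1 : (T w)⁻¹ • (T w • φ (X w)) = φ (X w) := by
      rw [smul_smul, inv_mul_cancel₀ (hT0 w hw), one_smul]
    rw [← e1, ← hT w hw]
  have tr : Tr C (fun w => h (X w)) K := by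
    constructor
    · intro w _
      exact ne_zero_of (K := K) (f := h) (x := X w) (by simpa using hpair' (X w) (X w))
    · intro u hu w hw z hz s t e
      by_cases e1 : X z = X u
      · exact ⟨1, 0, by rw [e1]; simp⟩
      by_cases e2 : X z = X w
      · exact ⟨0, 1, by rw [e2]; simp⟩
      have h1 : φ (X z) = ((T z)⁻¹ * s * T u) • φ (X u) + ((T z)⁻¹ * t * T w) • φ (X w) := by
        rw [hXφ z hz, hXφ u hu, hXφ w hw]
        have q1 : (T z)⁻¹ * s * T u * (T u)⁻¹ = (T z)⁻¹ * s := by
          rw [mul_assoc, mul_inv_cancel₀ (hT0 u hu), mul_one]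
        have q2 : (T z)⁻¹ * t * T w * (T w)⁻¹ = (T z)⁻¹ * t := by
          rw [mul_assoc, mul_inv_cancel₀ (hT0 w hw), mul_one]
        rw [smul_smul, smul_smul, q1, q2, mul_smul, mul_smul, ← smul_add, ← e]
      have h2 := hφ_comb _ _ _ _ _ h1
      have h3 := not_indep e1 e2 _ _ h2
      have h4 : ¬ LinearIndepOn K h (insert (X z) {X u, X w}) := by
        rw [← hh]
        rwa [← hf] at h3
      exact exists_comb e1 e2 (hpair' _ _) h4
  have nsm : ∀ w ∈ C, ∀ w' ∈ C, (∀ s t : ZMod p, s ≠ 0 → t ≠ 0 → s • w ≠ t • w') →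
      ∀ t : K, h (X w) ≠ t • h (X w') := by
    intro w hw w' hw' hne t
    refine ne_smul_of ?_ (hpair' _ _) t
    intro e
    exact hne _ _ (hT0 w' hw') (hT0 w hw) (hsep w hw w' hw' e)
  have ind : ∀ x ∈ C, ∀ y ∈ C, ∀ z ∈ C, LinearIndependent (ZMod p) ![x, y, z] →
      LinearIndependent K ![h (X x), h (X y), h (X z)] := by
    intro x hx y hy z hz hli
    have key : ∀ g0 g1 g2 : ZMod p, g0 • x + g1 • y + g2 • z = 0 → g0 = 0 ∧ g1 = 0 ∧ g2 = 0 := by
      intro g0 g1 g2 e
      have := Fintype.linearIndependent_iff.1 hli ![g0, g1, g2] (by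
        rw [Fin.sum_univ_three]
        simpa using e)
      exact ⟨by simpa using this 0, by simpa using this 1, by simpa using this 2⟩
    have nxy : X x ≠ X y := by
      intro e
      have := (key (T y) (-T x) 0 (by rw [neg_smul, hsep x hx y hy e]; simp)).1
      exact hT0 y hy this
    have nxz : X x ≠ X z := by
      intro e
      have := (key (T z) 0 (-T x) (by rw [neg_smul, hsep x hx z hz e]; simp)).1
      exact hT0 z hz this
    have nyz : X y ≠ X z := by
      intro e
      have := (key 0 (T z) (-T y) (by rw [neg_smul, hsep y hy z hz e]; simp)).2.1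
      exact hT0 z hz this
    have htri : LinearIndepOn K h (insert (X x) {X y, X z}) := by
      rw [← hh, hf]
      refine indep_triple nxy nxz (hpair _ _) ?_
      intro s t e
      have e1 := hφ_comb' _ _ _ _ _ e
      rw [hXφ _ hx, hXφ _ hy, hXφ _ hz, smul_smul, smul_smul] at e1
      have := (key (T x)⁻¹ (-(s * (T y)⁻¹)) (-(t * (T z)⁻¹)) (by
        rw [e1, neg_smul, neg_smul]
        abel)).1
      exact inv_ne_zero (hT0 x hx) this
    exact fam_of nxy nxz nyz htri
  have cX : vX p ∈ C := by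
    have e : φ a = vX p := by
      apply hL
      rw [← hφ a]
      simp [vX]
    rw [hC]
    exact ⟨a, 1, one_ne_zero, by rw [e, one_smul]⟩
  refine three_lines tr nsm ind cX h12 h13 h23 hl1 hl3 hs1 hs2
    (univ.filter fun a : ZMod p => (![a, l₁ * t₁, l₁] : Fin 3 → ZMod p) ∈ C)
    (univ.filter fun a : ZMod p => (![a, t₂, 1] : Fin 3 → ZMod p) ∈ C)
    (univ.filter fun a : ZMod p => (![a, l₃ * t₃, l₃] : Fin 3 → ZMod p) ∈ C)
    (fun a ha => (mem_filter.1 ha).2) (fun a ha => (mem_filter.1 ha).2)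
    (fun a ha => (mem_filter.1 ha).2) ?_ ?_ ?_
  · exact lt_of_le_of_lt (Nat.mul_le_mul_left 4 (hset l₁ t₁ hl1)) g1.2
  · have := hset 1 t₂ one_ne_zero
    rw [one_mul] at this
    exact lt_of_le_of_lt (Nat.mul_le_mul_left 4 this) g2.2
  · exact lt_of_le_of_lt (Nat.mul_le_mul_left 4 (hset l₃ t₃ hl3)) g3.2

/-- **Theorem.** `γ(p) ≤ ⌊(3 p² + 6 p + 8) / 4⌋` for every prime `p`: every `N` with
`4 N > 3 p² + 6 p + 4` has the property that all fields over which a simple rank-3
`GF(p)`-representable matroid with at least `N` points is representable have characteristic `p`. -/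
theorem result (p : ℕ) [Fact p.Prime] (N : ℕ) (hN : 3 * p ^ 2 + 6 * p + 4 < 4 * N) :
    SizeForcesChar p N := by
  intro E _ M hs h3 hrep hE K _ hK
  have h0 : (p : K) = 0 := main hs h3 hrep (lt_of_lt_of_le hN (Nat.mul_le_mul_left 4 hE)) hK
  exact (CharP.charP_iff_prime_eq_zero Fact.out).2 h0

end Pool.Agent.Results.MP_9a4f8a_co.ThreeQuarters
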